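import Pool.Agent.Helper39.SQ.Goals

/-! # SQ-COUNT: few shapes are almost below a given vector -/

set_option autoImplicit false

open Finset

namespace Pool.Agent.Helper74.SQ

open Pool.Agent.Helper39.SQ

/-- the shapes with given exceptional set and given values on it -/
theorem fib (d D N h G : ℕ) (hd : 1 ≤ d) (a : Fin d → ℕ) (ha : ∑ c, a c < N + h)
    (S : Finset (Fin d)) (hS : S.card ≤ G) (τ : S → Fin D) :
    ((univ : Finset (Fin d → Fin D)).filter fun σ => ∑ c, (σ c : ℕ) = N ∧
      (univ.filter fun c => a c < (σ c : ℕ)) = S ∧ (fun c : S => σ c) = τ).card ≤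
      (h + G * D + d - 1).choose (d - 1) := by
  classical
  set H : ℕ := ∑ c ∈ Sᶜ, a c + ∑ c : S, (τ c : ℕ) - N with hH
  have h1 : ∑ c ∈ Sᶜ, a c ≤ ∑ c, a c := Finset.sum_le_sum_of_subset (subset_univ _)
  have h2 : ∑ c : S, (τ c : ℕ) ≤ G * D := by
    calc ∑ c : S, (τ c : ℕ) ≤ ∑ _c : S, D := Finset.sum_le_sum fun c _ => (τ c).2.le
      _ = S.card * D := by simp
      _ ≤ G * D := Nat.mul_le_mul_right _ hS
  have h3 : H ≤ h + G * D := by omega
  have h4 : ((univ : Finset (Fin d → Fin D)).filter fun σ => ∑ c, (σ c : ℕ) = N ∧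
      (univ.filter fun c => a c < (σ c : ℕ)) = S ∧ (fun c : S => σ c) = τ).card ≤
      (Finset.piAntidiag (univ : Finset (Fin d)) H).card := by
    apply Finset.card_le_card_of_injOn
      (fun σ : Fin d → Fin D => fun c => if c ∈ S then 0 else a c - (σ c : ℕ))
    · intro σ hσ
      rw [Finset.mem_coe, Finset.mem_filter] at hσ
      obtain ⟨-, g1, g2, g3⟩ := hσ
      rw [Finset.mem_coe, Finset.mem_piAntidiag]
      refine ⟨?_, fun _ _ => mem_univ _⟩
      have k1 : ∑ c, (if c ∈ S then 0 else a c - (σ c : ℕ)) = ∑ c ∈ Sᶜ, (a c - (σ c : ℕ)) := by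
        rw [← Finset.sum_add_sum_compl S]
        have : ∑ c ∈ S, (if c ∈ S then 0 else a c - (σ c : ℕ)) = 0 :=
          Finset.sum_eq_zero fun c hc => by rw [if_pos hc]
        rw [this, zero_add]
        apply Finset.sum_congr rfl
        intro c hc
        rw [if_neg (Finset.mem_compl.1 hc)]
      have k2 : ∑ c ∈ Sᶜ, (a c - (σ c : ℕ)) + ∑ c ∈ Sᶜ, (σ c : ℕ) = ∑ c ∈ Sᶜ, a c := by
        rw [← Finset.sum_add_distrib]
        apply Finset.sum_congr rfl
        intro c hc
        have : c ∉ univ.filter fun c => a c < (σ c : ℕ) := by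
          rw [g2]; exact Finset.mem_compl.1 hc
        rw [Finset.mem_filter] at this
        have : ¬ a c < (σ c : ℕ) := fun hh => this ⟨mem_univ _, hh⟩
        omega
      have k3 : ∑ c ∈ S, (σ c : ℕ) = ∑ c : S, (τ c : ℕ) := by
        rw [← Finset.sum_coe_sort S (fun c => (σ c : ℕ))]
        apply Finset.sum_congr rfl
        intro c _
        rw [← g3]
      have k4 := Finset.sum_add_sum_compl S (fun c => (σ c : ℕ))
      show ∑ c, (if c ∈ S then 0 else a c - (σ c : ℕ)) = H
      rw [k1]
      omega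
    · intro σ hσ σ' hσ' he
      rw [Finset.mem_coe, Finset.mem_filter] at hσ hσ'
      obtain ⟨-, g1, g2, g3⟩ := hσ
      obtain ⟨-, g1', g2', g3'⟩ := hσ'
      funext c
      by_cases hc : c ∈ S
      · have := congrFun (g3.trans g3'.symm) ⟨c, hc⟩
        exact this
      · have e1 : (if c ∈ S then 0 else a c - (σ c : ℕ)) =
          (if c ∈ S then 0 else a c - (σ' c : ℕ)) := congrFun he c
        rw [if_neg hc, if_neg hc] at e1
        have e2 : ¬ a c < (σ c : ℕ) := fun hh => hc (by
          rw [← g2, Finset.mem_filter]; exact ⟨mem_univ _, hh⟩)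
        have e3 : ¬ a c < (σ' c : ℕ) := fun hh => hc (by
          rw [← g2', Finset.mem_filter]; exact ⟨mem_univ _, hh⟩)
        apply Fin.ext
        omega
  refine h4.trans ?_
  have h0 : (Finset.piAntidiag (univ : Finset (Fin d)) H).card = (d + H - 1).choose H := by
    rw [← Finset.map_sym_eq_piAntidiag, Finset.card_map, Finset.sym_univ, Finset.card_univ,
      Sym.card_sym_eq_choose, Fintype.card_fin]
  rw [h0]
  have e : (d + H - 1).choose H = (H + d - 1).choose (d - 1) := by
    have h5 : d + H - 1 = H + (d - 1) := by omega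
    have h6 : H + d - 1 = H + (d - 1) := by omega
    rw [h5, h6, Nat.choose_symm_add]
  rw [e]
  exact Nat.choose_le_choose _ (by omega)

theorem fib2 (d D N h G : ℕ) (hd : 1 ≤ d) (hD : 1 ≤ D) (a : Fin d → ℕ) (ha : ∑ c, a c < N + h)
    (S : Finset (Fin d)) (hS : S.card ≤ G) :
    ((univ : Finset (Fin d → Fin D)).filter fun σ => ∑ c, (σ c : ℕ) = N ∧
      (univ.filter fun c => a c < (σ c : ℕ)) = S).card ≤
      D ^ G * (h + G * D + d - 1).choose (d - 1) := by
  classical
  have h1 := Finset.card_le_mul_card_image (f := fun σ : Fin d → Fin D => (fun c : S => σ c))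
    ((univ : Finset (Fin d → Fin D)).filter fun σ => ∑ c, (σ c : ℕ) = N ∧
      (univ.filter fun c => a c < (σ c : ℕ)) = S) ((h + G * D + d - 1).choose (d - 1))
    (by
      intro τ _
      refine le_trans (Finset.card_le_card ?_) (fib d D N h G hd a ha S hS τ)
      intro σ hσ
      rw [Finset.mem_filter, Finset.mem_filter] at hσ
      rw [Finset.mem_filter]
      exact ⟨mem_univ _, hσ.1.2.1, hσ.1.2.2, hσ.2⟩)
  refine h1.trans ?_
  rw [Nat.mul_comm]
  apply Nat.mul_le_mul_right
  refine (Finset.card_le_univ _).trans ?_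
  rw [Fintype.card_fun, Fintype.card_fin, Fintype.card_coe]
  exact Nat.pow_le_pow_right hD hS

theorem thm : G_COUNT := by
  classical
  intro d D N h G hd hD a ha
  unfold cnt
  have h1 := Finset.card_le_mul_card_image
    (f := fun σ : Fin d → Fin D => univ.filter fun c => a c < (σ c : ℕ))
    ((univ : Finset (Fin d → Fin D)).filter fun σ => ∑ c, (σ c : ℕ) = N ∧
      (univ.filter fun c => a c < (σ c : ℕ)).card ≤ G) (D ^ G * (h + G * D + d - 1).choose (d - 1))
    (by
      intro S hS
      rw [Finset.mem_image] at hS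
      obtain ⟨σ0, hσ0, rfl⟩ := hS
      rw [Finset.mem_filter] at hσ0
      refine le_trans (Finset.card_le_card ?_) (fib2 d D N h G hd hD a ha _ hσ0.2.2)
      intro σ hσ
      rw [Finset.mem_filter, Finset.mem_filter] at hσ
      rw [Finset.mem_filter]
      exact ⟨mem_univ _, hσ.1.2.1, hσ.2⟩)
  refine h1.trans ?_
  rw [Nat.mul_comm, Nat.mul_assoc]
  apply Nat.mul_le_mul_right
  refine (Finset.card_le_univ _).trans ?_
  rw [Fintype.card_finset, Fintype.card_fin]

end Pool.Agent.Helper74.SQ
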